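import Mathlib
import Pool.Agent.H61.HB.Stmts

/-! Board hbg of helper61 (MP_91403e_an), row VOC: scalar linear equation, variation of constants. -/

set_option autoImplicit false

namespace HB

open MeasureTheory Set

theorem voc_thm : VOCStmt := by
  intro lam T f g hT hg
  -- continuous extension of `g`
  have hgr : Continuous (Set.restrict (Icc (0 : ℝ) T) g) := continuousOn_iff_continuous_restrict.1 hg
  let g' : ℝ → ℂ := Set.IccExtend hT (Set.restrict (Icc (0 : ℝ) T) g)
  have hg'c : Continuous g' := hgr.Icc_extend'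
  have hg'e : ∀ t ∈ Icc (0 : ℝ) T, g' t = g t := by
    intro t ht
    exact Set.IccExtend_of_mem hT _ ht
  have hexp : ∀ (a t : ℝ), HasDerivAt (fun r : ℝ => ((Real.exp (a * r) : ℝ) : ℂ))
      ((a : ℂ) * ((Real.exp (a * t) : ℝ) : ℂ)) t := by
    intro a t
    have h1 : HasDerivAt (fun r : ℝ => Real.exp (a * r)) (Real.exp (a * t) * (a * 1)) t :=
      (((hasDerivAt_id t).const_mul a).exp)
    have h2 := h1.ofReal_comp
    convert h2 using 1
    push_cast
    ring
  have hEc : Continuous (fun r : ℝ => ((Real.exp (lam * r) : ℝ) : ℂ) * g' r) := by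
    refine Continuous.mul ?_ hg'c
    exact Complex.continuous_ofReal.comp (Real.continuous_exp.comp (continuous_const.mul continuous_id))
  let G : ℝ → ℂ := fun t => ∫ r in (0 : ℝ)..t, ((Real.exp (lam * r) : ℝ) : ℂ) * g' r
  have hG : ∀ t : ℝ, HasDerivAt G (((Real.exp (lam * t) : ℝ) : ℂ) * g' t) t := by
    intro t
    exact intervalIntegral.integral_hasDerivAt_right (hEc.intervalIntegrable _ _)
      (hEc.stronglyMeasurableAtFilter _ _) hEc.continuousAt
  have hG0 : G 0 = 0 := intervalIntegral.integral_same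
  have hmul : ∀ t : ℝ, ((Real.exp (-lam * t) : ℝ) : ℂ) * ((Real.exp (lam * t) : ℝ) : ℂ) = 1 := by
    intro t
    rw [← Complex.ofReal_mul, ← Real.exp_add]
    have : -lam * t + lam * t = 0 := by ring
    rw [this, Real.exp_zero, Complex.ofReal_one]
  -- the formula in terms of `G`
  have hform : ∀ t ∈ Icc (0 : ℝ) T, ∫ r in (0 : ℝ)..t, ((Real.exp (-lam * (t - r)) : ℝ) : ℂ) * g r =
      ((Real.exp (-lam * t) : ℝ) : ℂ) * G t := by
    intro t ht
    simp only [G]
    rw [← intervalIntegral.integral_const_mul]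
    apply intervalIntegral.integral_congr
    intro r hr
    rw [Set.uIcc_of_le ht.1] at hr
    have hr' : r ∈ Icc (0 : ℝ) T := ⟨hr.1, hr.2.trans ht.2⟩
    simp only
    rw [hg'e r hr', ← mul_assoc, ← Complex.ofReal_mul, ← Real.exp_add]
    have : -lam * t + lam * r = -lam * (t - r) := by ring
    rw [this]
  constructor
  · intro h t ht
    rw [hform t ht]
    -- `exp (lam t) f t - G t` is constant
    let φ : ℝ → ℂ := fun t => ((Real.exp (lam * t) : ℝ) : ℂ) * f t - G t
    have hφ : ∀ x ∈ Icc (0 : ℝ) T, HasDerivWithinAt φ 0 (Icc 0 T) x := by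
      intro x hx
      have h1 := ((hexp lam x).hasDerivWithinAt (s := Icc 0 T)).mul (h x hx)
      have h2 := h1.sub ((hG x).hasDerivWithinAt (s := Icc 0 T))
      refine h2.congr_deriv ?_
      rw [hg'e x hx]
      ring
    have hconst : φ t = φ 0 := by
      rcases hT.eq_or_lt with h0 | h0
      · have : t = 0 := by
          have h1 := ht.1
          have h2 := ht.2
          linarith
        rw [this]
      · refine constant_of_derivWithin_zero (a := 0) (b := T)
          (fun x hx => (hφ x hx).differentiableWithinAt) ?_ t ht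
        intro x hx
        exact (hφ x (Ico_subset_Icc_self hx)).derivWithin
          (uniqueDiffOn_Icc h0 x (Ico_subset_Icc_self hx))
    simp only [φ, hG0, mul_zero, Real.exp_zero, Complex.ofReal_one, one_mul, sub_zero] at hconst
    have h3 : ((Real.exp (lam * t) : ℝ) : ℂ) * f t = f 0 + G t := by
      rw [← hconst]; ring
    rw [← mul_add, ← h3, ← mul_assoc, hmul, one_mul]
  · intro h t ht
    have h1 : HasDerivAt (fun r : ℝ => ((Real.exp (-lam * r) : ℝ) : ℂ) * (f 0 + G r))
        (((-lam : ℝ) : ℂ) * ((Real.exp (-lam * t) : ℝ) : ℂ) * (f 0 + G t) +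
          ((Real.exp (-lam * t) : ℝ) : ℂ) * (((Real.exp (lam * t) : ℝ) : ℂ) * g' t)) t :=
      (hexp (-lam) t).mul ((hG t).const_add (f 0))
    have h2 : ∀ r ∈ Icc (0 : ℝ) T, f r = ((Real.exp (-lam * r) : ℝ) : ℂ) * (f 0 + G r) := by
      intro r hr
      rw [h r hr, hform r hr]
      ring
    have h3 := (h1.hasDerivWithinAt (s := Icc 0 T)).congr h2 (h2 t ht)
    refine h3.congr_deriv ?_
    rw [h2 t ht, ← mul_assoc ((Real.exp (-lam * t) : ℝ) : ℂ) ((Real.exp (lam * t) : ℝ) : ℂ), hmul,
      one_mul, hg'e t ht, Complex.ofReal_neg]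
    ring

end HB
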